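import Pool.Agent.Helper33.KP1

/-!
# Positivity of the Gauss–Bonnet–Chern integrand for block sums and multiply warped types

Definitions (`Pool/Agent/Helper33/KP1.lean`), for a Euclidean space of dimension `2 m`:

* `GoodOn U T`: `T` is a sum of two curvature tensors of nonnegative sectional curvature living on
  subspaces of `U` of dimension at most five, or a curvature tensor of nonnegative sectional curvature
  living on a six-dimensional subspace of `U` which has an orthogonal complex structure for which `T`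
  is a Kähler tensor.
* `PBlocks δ R`: the space is an orthogonal sum of blocks of any dimensions and
  `R = ∑ T_i + ∑ (x_k ∧ y_k)² + δ · (unit tensor)` with `GoodOn (U i) (T i)` and each `x_k` and each
  `y_k` in one of the blocks.
* `PWarp δ R`: the tensors of multiply warped type, `∑ S_i + ∑_{i<j} h_ij ∧ k_ij`, with blocks of
  dimension at most five or six-dimensional Kähler blocks; the only curvature hypothesis is that the
  sectional curvatures are at least `δ`.

(1) In every even dimension, the Gauss–Bonnet–Chern integrand of these tensors is at least its value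
for constant curvature `δ`; so it is positive if `δ > 0`. (2), (3) Integrated forms.
(4) Superadditivity: `gbc (S + T) ≥ gbc S + gbc T` and `gbc T ≥ roundGB m δ` for
`T = ∑ (x_k ∧ y_k)² + δ · (unit tensor)` if the integrand of `S` is nonnegative on all
even-dimensional subspaces of smaller dimension. (5) In dimension six this holds for every `S` of
nonnegative sectional curvature. (6) In real dimension six the integrand of a Kähler tensor of
nonnegative (positive) holomorphic bisectional curvature is nonnegative (positive).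
-/

set_option autoImplicit false

namespace Pool.Agent.Results.MP_4a593f_gt.PositiveBlocks

open Pool.Agent.W666.GB Pool.Agent.W669.HD Pool.Agent.Y519.HB Pool.Agent.Helper33.KG

theorem result :
    (∀ (m : ℕ) (V : Type) [NormedAddCommGroup V] [InnerProductSpace ℝ V]
      (e : OrthonormalBasis (Fin m × Bool) ℝ V) (R : V → V → V → V → ℝ) (δ : ℝ),
      0 ≤ δ → PBlocks δ R ∨ PWarp δ R → roundGB m δ ≤ gbc e R ∧ (0 < δ → 0 < gbc e R)) ∧
    (∀ (m : ℕ) (M : Type) [MeasurableSpace M] (μ : MeasureTheory.Measure M) (K : CurvField m M),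
      (∀ p, PBlocks 0 (K.R p) ∨ PWarp 0 (K.R p)) → 0 ≤ ∫ p, K.gb p ∂μ) ∧
    (∀ (m : ℕ) (M : Type) [MeasurableSpace M] (μ : MeasureTheory.Measure M)
      [MeasureTheory.IsFiniteMeasure μ] (K : CurvField m M) (δ : ℝ),
      MeasureTheory.Integrable K.gb μ → 0 ≤ δ → (∀ p, PBlocks δ (K.R p) ∨ PWarp δ (K.R p)) →
        roundGB m δ * μ.real Set.univ ≤ ∫ p, K.gb p ∂μ ∧
          (0 < δ → μ ≠ 0 → 0 < ∫ p, K.gb p ∂μ)) ∧
    (∀ (m : ℕ) (V : Type) [NormedAddCommGroup V] [InnerProductSpace ℝ V]
      (e : OrthonormalBasis (Fin m × Bool) ℝ V) (S T : V → V → V → V → ℝ) (n : ℕ)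
      (x y : Fin n → V) (δ : ℝ), 0 < m → 0 ≤ δ → AlgCurv S →
      (∀ k < m, ∀ (E : Submodule ℝ V) (e : OrthonormalBasis (Fin k × Bool) ℝ E),
        0 ≤ gbc e (fun x y z w : E => S x y z w)) →
      (∀ a b c d, T a b c d = (∑ k, sqDec (x k) (y k) a b c d) + δ * unitT a b c d) →
      gbc e S + gbc e T ≤ gbc e (addT S T) ∧ roundGB m δ ≤ gbc e T) ∧
    (∀ (V : Type) [NormedAddCommGroup V] [InnerProductSpace ℝ V]
      (e : OrthonormalBasis (Fin 3 × Bool) ℝ V) (S T : V → V → V → V → ℝ) (n : ℕ)
      (x y : Fin n → V) (δ : ℝ), 0 ≤ δ → AlgCurv S → (∀ a b, 0 ≤ S a b a b) →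
      (∀ a b c d, T a b c d = (∑ k, sqDec (x k) (y k) a b c d) + δ * unitT a b c d) →
      gbc e S + gbc e T ≤ gbc e (addT S T) ∧ roundGB 3 δ ≤ gbc e T) ∧
    (∀ (V : Type) [NormedAddCommGroup V] [InnerProductSpace ℝ V]
      (e : OrthonormalBasis (Fin 3 × Bool) ℝ V) (R : V → V → V → V → ℝ) (J : V →ₗ[ℝ] V),
      AlgCurv R → CxStr J → KaeSym J R →
        ((∀ x y, 0 ≤ R x (J x) y (J y)) → 0 ≤ gbc e R) ∧
        ((∀ x y, x ≠ 0 → y ≠ 0 → 0 < R x (J x) y (J y)) → 0 < gbc e R)) := by
  refine ⟨fun m V _ _ e R δ hδ h => ⟨pcls_bound e hδ h, fun hδ' =>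
      (roundGB_pos hδ').trans_le (pcls_bound e hδ h)⟩, fun m M _ μ K h => ?_,
    fun m M _ μ _ K δ hi hδ h => ?_,
    fun _ _ _ _ e _ _ _ _ _ _ hm hδ hS hH hT => pos_super hm e hδ hS hH hT,
    fun _ _ _ e _ _ _ _ _ _ hδ hS hs hT => pos_six_super e hδ hS hs hT,
    fun V _ _ e R J hR hJ hK => six_pos e hR hJ hK⟩
  · refine MeasureTheory.integral_nonneg fun p => ?_
    exact (roundGB_nonneg le_rfl).trans (pcls_bound (K.e p) le_rfl (h p))
  · have h1 : roundGB m δ * μ.real Set.univ = ∫ _, roundGB m δ ∂μ := by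
      rw [MeasureTheory.integral_const, smul_eq_mul, mul_comm]
    have h2 : roundGB m δ * μ.real Set.univ ≤ ∫ p, K.gb p ∂μ := by
      rw [h1]
      refine MeasureTheory.integral_mono (MeasureTheory.integrable_const _) hi fun p => ?_
      exact pcls_bound (K.e p) hδ (h p)
    refine ⟨h2, fun hδ' hμ => lt_of_lt_of_le (mul_pos (roundGB_pos hδ') ?_) h2⟩
    have h3 : 0 < μ Set.univ := MeasureTheory.Measure.measure_univ_pos.2 hμ
    exact ENNReal.toReal_pos h3.ne' (MeasureTheory.measure_ne_top μ _)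

end Pool.Agent.Results.MP_4a593f_gt.PositiveBlocks
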